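import Mathlib

set_option autoImplicit false

namespace Pool.Agent.Results.MP_68514f_co.Parity

open Finset

/-- The numbers `N_i` of the mixed Moore tree. -/
def N (r z : ℤ) : ℕ → ℤ
  | 0 => 1
  | 1 => r + z
  | i + 2 => (r + z - 1) * N r z (i + 1) + z * N r z i

/-- Total `(r, z)`-regularity of the mixed graph with edges `E` and arcs `A`. -/
def TotReg {V : Type} (E : SimpleGraph V) (A : V → V → Prop) (r z : ℕ) : Prop :=
  ∀ v, (E.neighborSet v).ncard = r ∧ {u | A v u}.ncard = z ∧ {u | A u v}.ncard = z

theorem par (r z : ℤ) (hr : r % 2 = 1) (hz : z % 2 = 1) :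
    ∀ i, N r z i % 2 = if i % 3 = 1 then 0 else 1
  | 0 => rfl
  | 1 => by simp only [N]; norm_num; omega
  | i + 2 => by
    have a := par r z hr hz i
    have b := par r z hr hz (i + 1)
    have c : (r + z - 1) % 2 = 1 := by omega
    rw [N, Int.add_emod, Int.mul_emod, Int.mul_emod z, a, b, c, hz]
    split_ifs <;> omega

theorem parM (r z : ℤ) (hr : r % 2 = 1) (hz : z % 2 = 1) (k : ℕ) :
    (∑ i ∈ range (k + 1), N r z i) % 2 = if k % 3 = 2 then 0 else 1 := by
  induction k with
  | zero => rfl
  | succ k ih =>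
    have := par r z hr hz (k + 1)
    rw [sum_range_succ]
    split_ifs at * <;> omega

theorem result (r z k : ℕ) (hr : Odd r) (hz : Odd z) (hk : k % 3 ≠ 2) (V : Type) [Fintype V]
    (E : SimpleGraph V) (A : V → V → Prop) (h : TotReg E A r z) :
    (Fintype.card V : ℤ) ≠ ∑ i ∈ range (k + 1), N r z i := by
  classical
  intro e
  have p := parM r z (by rw [Nat.odd_iff] at hr; omega) (by rw [Nat.odd_iff] at hz; omega) k
  rw [if_neg hk, ← e] at p
  have s := E.sum_degrees_eq_twice_card_edges
  rw [sum_congr rfl fun v _ => show E.degree v = r by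
    simpa [← SimpleGraph.coe_neighborFinset] using (h v).1] at s
  simp only [sum_const, card_univ, smul_eq_mul] at s
  have o : Odd (Fintype.card V * r) := Odd.mul (Nat.odd_iff.2 (by omega)) hr
  rw [s, Nat.odd_iff] at o
  omega

end Pool.Agent.Results.MP_68514f_co.Parity
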